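import Pool.Agent.Q93.BM.Fin
import Pool.Agent.Q48.BM.Nu
import Pool.Agent.Q48.BM.Onb
import Pool.Agent.Q48.BM.Weak
import Pool.Agent.Q166.BM.Vk
import Pool.Agent.Q166.BM.Green

set_option autoImplicit false

/-!
# Weak-* convergence of the Bergman measures does not imply the log-asymptotics (MP_58ffb3_an, Q1)

Dimension one. `K` is the unit circle, `ν = ∑ c_i σ_i` with `σ_i` the uniform probability on the
`2^i`-th roots of unity and `c_i = exp (-100 * 2^i)`.

The definitions are in `Pool.Agent.Q93.BM.Stm` (`IsSubharmonic`, `VK`, `IsONB`, `BF`) and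
`Pool.Agent.Q93.BM.Fin` (`IsEquilibrium`, `PropS`, `PropW`).
-/

namespace Pool.Agent.Results.MP_58ffb3_an.WeakStarWithoutLogAsymptotics

open MeasureTheory Polynomial Pool.Agent.Q93.BM

/-- There are a compact set `K` in the plane with finite and continuous extremal function `V_K` and
a finite measure `ν` on `K`, definite on the polynomials, such that (S) holds and (W) fails. -/
theorem result :
    ∃ (K : Set ℂ) (ν : Measure ℂ), IsCompact K ∧ (∀ z, VK K z ≠ ⊤ ∧ VK K z ≠ ⊥) ∧
      Continuous (fun z => (VK K z).toReal) ∧ IsFiniteMeasure ν ∧ ν Kᶜ = 0 ∧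
      (∀ p : ℂ[X], ∫ z, ‖p.eval z‖ ^ 2 ∂ν = 0 → p = 0) ∧ (∀ k, ∃ e, IsONB ν k e) ∧
      PropS K ν ∧ ¬ PropW K ν :=
  final Pool.Agent.Q166.BM.vk Pool.Agent.Q166.BM.green onb weak nuFacts

end Pool.Agent.Results.MP_58ffb3_an.WeakStarWithoutLogAsymptotics
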